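import Mathlib

/-!
# The tree stabbing number is not monotone

Let `S` be the six points `(0, 0)`, `(1, 0)`, `(2, 0)`, `(-1, 0)`, `(0, 1)`, `(0, -1)`. The tree that
joins consecutive points on the two axes has stabbing number at most `2`, since a line which
does not contain an axis meets it in at most one point. Without the origin every spanning
tree has a line that stabs three of its edges.
-/

set_option autoImplicit false

namespace Pool.Agent.Results.MP_3f72ec_co.NotMonotone

open Set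

/-- The Euclidean plane. -/
abbrev Plane : Type := EuclideanSpace ℝ (Fin 2)

/-- Straight lines of the plane. -/
def IsLine (ℓ : Set Plane) : Prop := ∃ p d : Plane, d ≠ 0 ∧ ℓ = {q | ∃ t : ℝ, q = p + t • d}

/-- `ℓ` stabs the segment with endpoints `a`, `b`: the intersection is exactly one point, which
lies in the relative interior of the segment. -/
def Stabs (ℓ : Set Plane) (a b : Plane) : Prop :=
  ∃ p, ℓ ∩ segment ℝ a b = {p} ∧ p ∈ openSegment ℝ a b

/-- The number of edges of `T` stabbed by `ℓ`. -/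
noncomputable def stabCount {S : Finset Plane} (T : SimpleGraph S) (ℓ : Set Plane) : ℕ :=
  Set.ncard {e : Sym2 S | e ∈ T.edgeSet ∧ ∃ a b : S, e = s(a, b) ∧ Stabs ℓ a b}

/-- The stabbing number of `T`: the maximum over all lines. -/
noncomputable def stabNumber {S : Finset Plane} (T : SimpleGraph S) : ℕ :=
  sSup {k | ∃ ℓ, IsLine ℓ ∧ k = stabCount T ℓ}

/-- `TREE-STAB(S)`: the minimum stabbing number over all trees with vertex set `S`. -/
noncomputable def treeStab (S : Finset Plane) : ℕ :=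
  sInf {k | ∃ T : SimpleGraph S, T.IsTree ∧ k = stabNumber T}

/-- The functional `q ↦ u q₀ + v q₁ - c`. -/
noncomputable def f (u v c : ℝ) (q : Plane) : ℝ := u * q 0 + v * q 1 - c

theorem isLine_f (u v c : ℝ) (h : 0 < u ^ 2 + v ^ 2) : IsLine {q | f u v c q = 0} := by
  refine ⟨!₂[u * c / (u ^ 2 + v ^ 2), v * c / (u ^ 2 + v ^ 2)], !₂[-v, u], ?_, ?_⟩
  · intro h0
    have h1 : (!₂[-v, u] : Plane) 0 = 0 := by rw [h0]; rfl
    have h2 : (!₂[-v, u] : Plane) 1 = 0 := by rw [h0]; rfl
    simp at h1 h2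
    rw [h1, h2] at h
    norm_num at h
  · ext q
    simp only [Set.mem_ofPred_eq, f]
    constructor
    · intro hq
      refine ⟨(-v * q 0 + u * q 1) / (u ^ 2 + v ^ 2), ?_⟩
      ext i
      fin_cases i
      · simp
        field_simp
        linear_combination u * hq
      · simp
        field_simp
        linear_combination v * hq
    · rintro ⟨t, rfl⟩
      simp
      field_simp
      ring

theorem exists_f (ℓ : Set Plane) (h : IsLine ℓ) :
    ∃ u v c : ℝ, 0 < u ^ 2 + v ^ 2 ∧ ℓ = {q | f u v c q = 0} := by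
  obtain ⟨p, d, hd, rfl⟩ := h
  have hN : 0 < d 0 ^ 2 + d 1 ^ 2 := by
    by_contra hc
    push Not at hc
    apply hd
    have h0 : d 0 = 0 := by nlinarith [sq_nonneg (d 0), sq_nonneg (d 1)]
    have h1 : d 1 = 0 := by nlinarith [sq_nonneg (d 0), sq_nonneg (d 1)]
    ext i
    fin_cases i
    · exact h0
    · exact h1
  refine ⟨-d 1, d 0, -d 1 * p 0 + d 0 * p 1, by rw [neg_sq]; linarith, ?_⟩
  ext q
  simp only [Set.mem_ofPred_eq, f]
  constructor
  · rintro ⟨t, rfl⟩
    simp only [PiLp.add_apply, PiLp.smul_apply, smul_eq_mul]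
    ring
  · intro hq
    refine ⟨((q 0 - p 0) * d 0 + (q 1 - p 1) * d 1) / (d 0 ^ 2 + d 1 ^ 2), ?_⟩
    ext i
    fin_cases i
    · simp only [Fin.zero_eta, PiLp.add_apply, PiLp.smul_apply, smul_eq_mul]
      field_simp
      linear_combination (-d 1) * hq
    · simp only [Fin.mk_one, PiLp.add_apply, PiLp.smul_apply, smul_eq_mul]
      field_simp
      linear_combination (d 0) * hq

theorem f_comb (u v c : ℝ) (a b : Plane) (x y : ℝ) (h : x + y = 1) :
    f u v c (x • a + y • b) = x * f u v c a + y * f u v c b := by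
  have hx : x = 1 - y := by linarith
  simp only [f, PiLp.add_apply, PiLp.smul_apply, smul_eq_mul]
  rw [hx]; ring

/-- Opposite sides: stabbed. -/
theorem stabs_of (u v c : ℝ) (a b : Plane) (ha : f u v c a < 0) (hb : 0 < f u v c b) :
    Stabs {q | f u v c q = 0} a b := by
  have hd : 0 < f u v c b - f u v c a := by linarith
  refine ⟨(f u v c b / (f u v c b - f u v c a)) • a + (-f u v c a / (f u v c b - f u v c a)) • b,
    ?_, ?_⟩
  · ext q
    simp only [Set.mem_inter_iff, Set.mem_ofPred_eq, Set.mem_singleton_iff]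
    constructor
    · rintro ⟨h1, x, y, hx, hy, hxy, rfl⟩
      rw [f_comb _ _ _ _ _ _ _ hxy] at h1
      have e1 : x = f u v c b / (f u v c b - f u v c a) := by
        field_simp
        have : y = 1 - x := by linarith
        rw [this] at h1
        linarith
      have e2 : y = -f u v c a / (f u v c b - f u v c a) := by
        field_simp
        have : x = 1 - y := by linarith
        rw [this] at h1
        linarith
      rw [← e1, ← e2]
    · rintro rfl
      have hsum : f u v c b / (f u v c b - f u v c a) + -f u v c a / (f u v c b - f u v c a) = 1 := by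
        field_simp; ring
      refine ⟨?_, _, _, ?_, ?_, hsum, rfl⟩
      · rw [f_comb _ _ _ _ _ _ _ hsum]
        field_simp; ring
      · exact div_nonneg hb.le hd.le
      · exact div_nonneg (by linarith) hd.le
  · refine ⟨_, _, div_pos hb hd, div_pos (by linarith) hd, ?_, rfl⟩
    field_simp; ring

theorem stabs_symm (ℓ : Set Plane) (a b : Plane) (h : Stabs ℓ a b) : Stabs ℓ b a := by
  obtain ⟨p, h1, h2⟩ := h
  exact ⟨p, by rw [segment_symm]; exact h1, by rw [openSegment_symm]; exact h2⟩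

/-- Stabbed: opposite sides. -/
theorem of_stabs (u v c : ℝ) (a b : Plane) (hab : a ≠ b) (h : Stabs {q | f u v c q = 0} a b) :
    f u v c a * f u v c b < 0 := by
  obtain ⟨p, h1, x, y, hx, hy, hxy, rfl⟩ := h
  have hp : x • a + y • b ∈ {q | f u v c q = 0} ∩ segment ℝ a b := by rw [h1]; rfl
  have h2 : f u v c (x • a + y • b) = 0 := hp.1
  rw [f_comb _ _ _ _ _ _ _ hxy] at h2
  by_cases ha : f u v c a = 0
  · exfalso
    have hb : f u v c b = 0 := by
      rw [ha] at h2
      have : y * f u v c b = 0 := by linarith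
      rcases mul_eq_zero.1 this with h | h
      · linarith
      · exact h
    have ma : a ∈ {q | f u v c q = 0} ∩ segment ℝ a b := ⟨ha, left_mem_segment ℝ a b⟩
    have mb : b ∈ {q | f u v c q = 0} ∩ segment ℝ a b := ⟨hb, right_mem_segment ℝ a b⟩
    rw [h1] at ma mb
    exact hab (ma.trans mb.symm)
  · have h3 : f u v c b = - (x / y) * f u v c a := by
      field_simp
      linarith
    rw [h3]
    have h4 : 0 < x / y := by positivity
    have h5 : 0 < f u v c a ^ 2 := by positivity
    nlinarith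


theorem stabCount_le (S : Finset Plane) (T : SimpleGraph S) (ℓ : Set Plane) :
    stabCount T ℓ ≤ Nat.card (Sym2 S) := by
  rw [← Set.ncard_univ]
  exact Set.ncard_le_ncard (Set.subset_univ _) (Set.toFinite _)

theorem le_stabNumber (S : Finset Plane) (T : SimpleGraph S) (ℓ : Set Plane) (h : IsLine ℓ) :
    stabCount T ℓ ≤ stabNumber T := by
  refine le_csSup ⟨Nat.card (Sym2 S), ?_⟩ ⟨ℓ, h, rfl⟩
  rintro k ⟨ℓ', -, rfl⟩
  exact stabCount_le S T ℓ'

/-- The configuration without the origin. -/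
noncomputable def P : Fin 5 → Plane := ![!₂[1, 0], !₂[2, 0], !₂[-1, 0], !₂[0, 1], !₂[0, -1]]

/-- The configuration. -/
noncomputable def P₀ : Fin 6 → Plane :=
  ![!₂[0, 0], !₂[1, 0], !₂[2, 0], !₂[-1, 0], !₂[0, 1], !₂[0, -1]]

theorem P₀_inj : Function.Injective P₀ := by
  intro i j h
  have h0 : P₀ i 0 = P₀ j 0 := by rw [h]
  have h1 : P₀ i 1 = P₀ j 1 := by rw [h]
  revert h0 h1
  clear h
  fin_cases i <;> fin_cases j <;> simp [P₀] <;> norm_num

theorem P_eq (i : Fin 5) : P i = P₀ i.succ := by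
  fin_cases i <;> rfl

theorem P_inj : Function.Injective P := by
  intro i j h
  rw [P_eq, P_eq] at h
  exact Fin.succ_injective _ (P₀_inj h)

open Classical in
/-- The points of an injective family. -/
noncomputable def conf {n : ℕ} (Q : Fin n → Plane) : Finset Plane := Finset.univ.image Q

theorem mem_conf {n : ℕ} (Q : Fin n → Plane) (p : Plane) : p ∈ conf Q ↔ ∃ i, Q i = p := by
  simp [conf]

/-- The numbering of the points. -/
noncomputable def num {n : ℕ} (Q : Fin n → Plane) (hQ : Function.Injective Q) :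
    Fin n ≃ (conf Q) :=
  Equiv.ofBijective (fun i => ⟨Q i, (mem_conf Q _).2 ⟨i, rfl⟩⟩)
    ⟨fun i j h => hQ (congrArg Subtype.val h), fun p => by
      obtain ⟨i, hi⟩ := (mem_conf Q _).1 p.2
      exact ⟨i, Subtype.ext hi⟩⟩

theorem num_coe {n : ℕ} (Q : Fin n → Plane) (hQ : Function.Injective Q) (i : Fin n) :
    ((num Q hQ i : conf Q) : Plane) = Q i := rfl

/-- Edges whose endpoints lie on different sides of a line are stabbed. -/
theorem cut_le (T : SimpleGraph (conf P)) (hT : stabNumber T ≤ 2) (u v c : ℝ)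
    (huv : 0 < u ^ 2 + v ^ 2) (L : List (Fin 5 × Fin 5))
    (hL : (L.map (fun p => s(p.1, p.2))).Nodup)
    (hs : ∀ p ∈ L, f u v c (P p.1) * f u v c (P p.2) < 0) :
    (L.map (fun p => (@decide (T.Adj (num P P_inj p.1) (num P P_inj p.2))
      (Classical.propDecidable _)).toNat)).sum ≤ 2 := by
  classical
  refine le_trans ?_ ((le_stabNumber _ T _ (isLine_f u v c huv)).trans hT)
  have h1 : ∀ M : List (Fin 5 × Fin 5), (M.map (fun p =>
      (@decide (T.Adj (num P P_inj p.1) (num P P_inj p.2))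
      (Classical.propDecidable _)).toNat)).sum =
      (M.filter (fun p => decide (T.Adj (num P P_inj p.1) (num P P_inj p.2)))).length := by
    intro M
    induction M with
    | nil => rfl
    | cons p M ih =>
        rw [List.map_cons, List.sum_cons, ih, List.filter_cons]
        by_cases hp : T.Adj (num P P_inj p.1) (num P P_inj p.2)
        · simp [hp]; ring
        · simp [hp]
  rw [h1]
  set L' := L.filter (fun p => decide (T.Adj (num P P_inj p.1) (num P P_inj p.2))) with hL'
  have hnd : (L'.map (fun p => Sym2.map (num P P_inj) s(p.1, p.2))).Nodup := by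
    have h2 : (L'.map (fun p => s(p.1, p.2))).Nodup :=
      List.Nodup.sublist (List.Sublist.map _ List.filter_sublist) hL
    have h3 := h2.map (Sym2.map.injective (num P P_inj).injective)
    rwa [List.map_map] at h3
  have hcard : L'.length = (L'.map (fun p => Sym2.map (num P P_inj) s(p.1, p.2))).toFinset.card := by
    rw [List.toFinset_card_of_nodup hnd, List.length_map]
  rw [hcard, ← Set.ncard_coe_finset, stabCount]
  refine Set.ncard_le_ncard ?_ (Set.toFinite _)
  intro e he
  simp only [List.coe_toFinset, List.mem_map, Set.mem_ofPred_eq] at he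
  obtain ⟨p, hp, rfl⟩ := he
  rw [hL', List.mem_filter] at hp
  obtain ⟨hp1, hp2⟩ := hp
  have hadj : T.Adj (num P P_inj p.1) (num P P_inj p.2) := by simpa using hp2
  refine ⟨?_, num P P_inj p.1, num P P_inj p.2, rfl, ?_⟩
  · show s(num P P_inj p.1, num P P_inj p.2) ∈ T.edgeSet
    exact hadj
  · rw [num_coe, num_coe]
    have := hs p hp1
    rcases mul_neg_iff.1 this with h | h
    · exact stabs_symm _ _ _ (stabs_of _ _ _ _ _ h.2 h.1)
    · exact stabs_of _ _ _ _ _ h.1 h.2

theorem conn_cut (T : SimpleGraph (conf P)) (hT : T.Connected) (A : Finset (Fin 5)) (i j : Fin 5)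
    (hi : i ∈ A) (hj : j ∉ A) :
    ∃ x ∈ A, ∃ y, y ∉ A ∧ T.Adj (num P P_inj x) (num P P_inj y) := by
  obtain ⟨w⟩ := hT.preconnected (num P P_inj i) (num P P_inj j)
  obtain ⟨d, -, h1, h2⟩ := w.exists_boundary_dart ((num P P_inj) '' (A : Set (Fin 5)))
    ⟨i, hi, rfl⟩ (by
      rintro ⟨k, hk, hk2⟩
      rw [(num P P_inj).injective hk2] at hk
      exact hj hk)
  obtain ⟨x, hx, hx2⟩ := h1
  refine ⟨x, hx, (num P P_inj).symm d.snd, ?_, ?_⟩
  · intro h
    exact h2 ⟨_, h, by simp⟩
  · rw [hx2, Equiv.apply_symm_apply]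
    exact d.adj

theorem bool_fact : ∀ b01 b02 b03 b04 b12 b13 b14 b23 b24 b34 : Bool,
    ((b01 || b02 || b03 || b04) && (b01 || b12 || b13 || b14) && (b02 || b12 || b23 || b24) && (b03 || b13 || b23 || b34) && (b04 || b14 || b24 || b34) && (b02 || b03 || b04 || b12 || b13 || b14) && (b01 || b03 || b04 || b12 || b23 || b24) && (b01 || b02 || b04 || b13 || b23 || b34) && (b01 || b02 || b03 || b14 || b24 || b34) && (b01 || b13 || b14 || b02 || b23 || b24) && (b01 || b12 || b14 || b03 || b23 || b34) && (b01 || b12 || b13 || b04 || b24 || b34) && (b02 || b12 || b24 || b03 || b13 || b34) && (b02 || b12 || b23 || b04 || b14 || b34) && (b03 || b13 || b23 || b04 || b14 || b24)) = true →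
    ¬ ((b01.toNat + b12.toNat + b13.toNat + b14.toNat ≤ 2) ∧ (b02.toNat + b03.toNat + b04.toNat + b12.toNat + b13.toNat + b14.toNat ≤ 2) ∧ (b02.toNat + b12.toNat + b23.toNat + b24.toNat ≤ 2) ∧ (b03.toNat + b13.toNat + b23.toNat + b34.toNat ≤ 2) ∧ (b04.toNat + b14.toNat + b24.toNat + b34.toNat ≤ 2) ∧ (b02.toNat + b04.toNat + b12.toNat + b14.toNat + b23.toNat + b34.toNat ≤ 2) ∧ (b02.toNat + b03.toNat + b12.toNat + b13.toNat + b24.toNat + b34.toNat ≤ 2) ∧ (b01.toNat + b12.toNat + b14.toNat + b03.toNat + b23.toNat + b34.toNat ≤ 2) ∧ (b01.toNat + b12.toNat + b13.toNat + b04.toNat + b24.toNat + b34.toNat ≤ 2)) := by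
  decide +kernel

set_option maxHeartbeats 2000000 in
theorem lower (T : SimpleGraph (conf P)) (hT : T.IsTree) : 3 ≤ stabNumber T := by
  classical
  by_contra hc
  push Not at hc
  have h2 : stabNumber T ≤ 2 := by omega
  set g : Fin 5 → Fin 5 → Bool := fun i j =>
    @decide (T.Adj (num P P_inj i) (num P P_inj j)) (Classical.propDecidable _) with hg
  have hsym : ∀ i j, g i j = g j i := by
    intro i j
    simp only [hg]
    congr 1
    exact propext ⟨fun h => h.symm, fun h => h.symm⟩
  have key : ∀ A : Finset (Fin 5), ∀ i j, i ∈ A → j ∉ A → ∃ x ∈ A, ∃ y, y ∉ A ∧ g x y = true := by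
    intro A i j hi hj
    obtain ⟨x, hx, y, hy, h⟩ := conn_cut T hT.connected A i j hi hj
    exact ⟨x, hx, y, hy, by simpa [hg] using h⟩
  have c0 : (g 0 1 || g 0 2 || g 0 3 || g 0 4) = true := by
    obtain ⟨x, hx, y, hy, h⟩ := key {0} 0 1 (by decide) (by decide)
    simp only [Finset.mem_insert, Finset.mem_singleton] at hx
    rcases hx with rfl
    all_goals fin_cases y
    all_goals first
      | exact absurd (by decide) hy
      | (simp only [Fin.zero_eta, Fin.mk_one, Fin.reduceFinMk] at h; simp only [h, Bool.or_true, Bool.true_or]; done)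
      | (simp only [Fin.zero_eta, Fin.mk_one, Fin.reduceFinMk] at h; rw [hsym] at h; simp only [h, Bool.or_true, Bool.true_or]; done)
  have c1 : (g 0 1 || g 1 2 || g 1 3 || g 1 4) = true := by
    obtain ⟨x, hx, y, hy, h⟩ := key {1} 1 0 (by decide) (by decide)
    simp only [Finset.mem_insert, Finset.mem_singleton] at hx
    rcases hx with rfl
    all_goals fin_cases y
    all_goals first
      | exact absurd (by decide) hy
      | (simp only [Fin.zero_eta, Fin.mk_one, Fin.reduceFinMk] at h; simp only [h, Bool.or_true, Bool.true_or]; done)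
      | (simp only [Fin.zero_eta, Fin.mk_one, Fin.reduceFinMk] at h; rw [hsym] at h; simp only [h, Bool.or_true, Bool.true_or]; done)
  have c2 : (g 0 2 || g 1 2 || g 2 3 || g 2 4) = true := by
    obtain ⟨x, hx, y, hy, h⟩ := key {2} 2 0 (by decide) (by decide)
    simp only [Finset.mem_insert, Finset.mem_singleton] at hx
    rcases hx with rfl
    all_goals fin_cases y
    all_goals first
      | exact absurd (by decide) hy
      | (simp only [Fin.zero_eta, Fin.mk_one, Fin.reduceFinMk] at h; simp only [h, Bool.or_true, Bool.true_or]; done)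
      | (simp only [Fin.zero_eta, Fin.mk_one, Fin.reduceFinMk] at h; rw [hsym] at h; simp only [h, Bool.or_true, Bool.true_or]; done)
  have c3 : (g 0 3 || g 1 3 || g 2 3 || g 3 4) = true := by
    obtain ⟨x, hx, y, hy, h⟩ := key {3} 3 0 (by decide) (by decide)
    simp only [Finset.mem_insert, Finset.mem_singleton] at hx
    rcases hx with rfl
    all_goals fin_cases y
    all_goals first
      | exact absurd (by decide) hy
      | (simp only [Fin.zero_eta, Fin.mk_one, Fin.reduceFinMk] at h; simp only [h, Bool.or_true, Bool.true_or]; done)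
      | (simp only [Fin.zero_eta, Fin.mk_one, Fin.reduceFinMk] at h; rw [hsym] at h; simp only [h, Bool.or_true, Bool.true_or]; done)
  have c4 : (g 0 4 || g 1 4 || g 2 4 || g 3 4) = true := by
    obtain ⟨x, hx, y, hy, h⟩ := key {4} 4 0 (by decide) (by decide)
    simp only [Finset.mem_insert, Finset.mem_singleton] at hx
    rcases hx with rfl
    all_goals fin_cases y
    all_goals first
      | exact absurd (by decide) hy
      | (simp only [Fin.zero_eta, Fin.mk_one, Fin.reduceFinMk] at h; simp only [h, Bool.or_true, Bool.true_or]; done)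
      | (simp only [Fin.zero_eta, Fin.mk_one, Fin.reduceFinMk] at h; rw [hsym] at h; simp only [h, Bool.or_true, Bool.true_or]; done)
  have c5 : (g 0 2 || g 0 3 || g 0 4 || g 1 2 || g 1 3 || g 1 4) = true := by
    obtain ⟨x, hx, y, hy, h⟩ := key {0, 1} 0 2 (by decide) (by decide)
    simp only [Finset.mem_insert, Finset.mem_singleton] at hx
    rcases hx with rfl | rfl
    all_goals fin_cases y
    all_goals first
      | exact absurd (by decide) hy
      | (simp only [Fin.zero_eta, Fin.mk_one, Fin.reduceFinMk] at h; simp only [h, Bool.or_true, Bool.true_or]; done)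
      | (simp only [Fin.zero_eta, Fin.mk_one, Fin.reduceFinMk] at h; rw [hsym] at h; simp only [h, Bool.or_true, Bool.true_or]; done)
  have c6 : (g 0 1 || g 0 3 || g 0 4 || g 1 2 || g 2 3 || g 2 4) = true := by
    obtain ⟨x, hx, y, hy, h⟩ := key {0, 2} 0 1 (by decide) (by decide)
    simp only [Finset.mem_insert, Finset.mem_singleton] at hx
    rcases hx with rfl | rfl
    all_goals fin_cases y
    all_goals first
      | exact absurd (by decide) hy
      | (simp only [Fin.zero_eta, Fin.mk_one, Fin.reduceFinMk] at h; simp only [h, Bool.or_true, Bool.true_or]; done)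
      | (simp only [Fin.zero_eta, Fin.mk_one, Fin.reduceFinMk] at h; rw [hsym] at h; simp only [h, Bool.or_true, Bool.true_or]; done)
  have c7 : (g 0 1 || g 0 2 || g 0 4 || g 1 3 || g 2 3 || g 3 4) = true := by
    obtain ⟨x, hx, y, hy, h⟩ := key {0, 3} 0 1 (by decide) (by decide)
    simp only [Finset.mem_insert, Finset.mem_singleton] at hx
    rcases hx with rfl | rfl
    all_goals fin_cases y
    all_goals first
      | exact absurd (by decide) hy
      | (simp only [Fin.zero_eta, Fin.mk_one, Fin.reduceFinMk] at h; simp only [h, Bool.or_true, Bool.true_or]; done)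
      | (simp only [Fin.zero_eta, Fin.mk_one, Fin.reduceFinMk] at h; rw [hsym] at h; simp only [h, Bool.or_true, Bool.true_or]; done)
  have c8 : (g 0 1 || g 0 2 || g 0 3 || g 1 4 || g 2 4 || g 3 4) = true := by
    obtain ⟨x, hx, y, hy, h⟩ := key {0, 4} 0 1 (by decide) (by decide)
    simp only [Finset.mem_insert, Finset.mem_singleton] at hx
    rcases hx with rfl | rfl
    all_goals fin_cases y
    all_goals first
      | exact absurd (by decide) hy
      | (simp only [Fin.zero_eta, Fin.mk_one, Fin.reduceFinMk] at h; simp only [h, Bool.or_true, Bool.true_or]; done)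
      | (simp only [Fin.zero_eta, Fin.mk_one, Fin.reduceFinMk] at h; rw [hsym] at h; simp only [h, Bool.or_true, Bool.true_or]; done)
  have c9 : (g 0 1 || g 1 3 || g 1 4 || g 0 2 || g 2 3 || g 2 4) = true := by
    obtain ⟨x, hx, y, hy, h⟩ := key {1, 2} 1 0 (by decide) (by decide)
    simp only [Finset.mem_insert, Finset.mem_singleton] at hx
    rcases hx with rfl | rfl
    all_goals fin_cases y
    all_goals first
      | exact absurd (by decide) hy
      | (simp only [Fin.zero_eta, Fin.mk_one, Fin.reduceFinMk] at h; simp only [h, Bool.or_true, Bool.true_or]; done)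
      | (simp only [Fin.zero_eta, Fin.mk_one, Fin.reduceFinMk] at h; rw [hsym] at h; simp only [h, Bool.or_true, Bool.true_or]; done)
  have c10 : (g 0 1 || g 1 2 || g 1 4 || g 0 3 || g 2 3 || g 3 4) = true := by
    obtain ⟨x, hx, y, hy, h⟩ := key {1, 3} 1 0 (by decide) (by decide)
    simp only [Finset.mem_insert, Finset.mem_singleton] at hx
    rcases hx with rfl | rfl
    all_goals fin_cases y
    all_goals first
      | exact absurd (by decide) hy
      | (simp only [Fin.zero_eta, Fin.mk_one, Fin.reduceFinMk] at h; simp only [h, Bool.or_true, Bool.true_or]; done)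
      | (simp only [Fin.zero_eta, Fin.mk_one, Fin.reduceFinMk] at h; rw [hsym] at h; simp only [h, Bool.or_true, Bool.true_or]; done)
  have c11 : (g 0 1 || g 1 2 || g 1 3 || g 0 4 || g 2 4 || g 3 4) = true := by
    obtain ⟨x, hx, y, hy, h⟩ := key {1, 4} 1 0 (by decide) (by decide)
    simp only [Finset.mem_insert, Finset.mem_singleton] at hx
    rcases hx with rfl | rfl
    all_goals fin_cases y
    all_goals first
      | exact absurd (by decide) hy
      | (simp only [Fin.zero_eta, Fin.mk_one, Fin.reduceFinMk] at h; simp only [h, Bool.or_true, Bool.true_or]; done)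
      | (simp only [Fin.zero_eta, Fin.mk_one, Fin.reduceFinMk] at h; rw [hsym] at h; simp only [h, Bool.or_true, Bool.true_or]; done)
  have c12 : (g 0 2 || g 1 2 || g 2 4 || g 0 3 || g 1 3 || g 3 4) = true := by
    obtain ⟨x, hx, y, hy, h⟩ := key {2, 3} 2 0 (by decide) (by decide)
    simp only [Finset.mem_insert, Finset.mem_singleton] at hx
    rcases hx with rfl | rfl
    all_goals fin_cases y
    all_goals first
      | exact absurd (by decide) hy
      | (simp only [Fin.zero_eta, Fin.mk_one, Fin.reduceFinMk] at h; simp only [h, Bool.or_true, Bool.true_or]; done)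
      | (simp only [Fin.zero_eta, Fin.mk_one, Fin.reduceFinMk] at h; rw [hsym] at h; simp only [h, Bool.or_true, Bool.true_or]; done)
  have c13 : (g 0 2 || g 1 2 || g 2 3 || g 0 4 || g 1 4 || g 3 4) = true := by
    obtain ⟨x, hx, y, hy, h⟩ := key {2, 4} 2 0 (by decide) (by decide)
    simp only [Finset.mem_insert, Finset.mem_singleton] at hx
    rcases hx with rfl | rfl
    all_goals fin_cases y
    all_goals first
      | exact absurd (by decide) hy
      | (simp only [Fin.zero_eta, Fin.mk_one, Fin.reduceFinMk] at h; simp only [h, Bool.or_true, Bool.true_or]; done)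
      | (simp only [Fin.zero_eta, Fin.mk_one, Fin.reduceFinMk] at h; rw [hsym] at h; simp only [h, Bool.or_true, Bool.true_or]; done)
  have c14 : (g 0 3 || g 1 3 || g 2 3 || g 0 4 || g 1 4 || g 2 4) = true := by
    obtain ⟨x, hx, y, hy, h⟩ := key {3, 4} 3 0 (by decide) (by decide)
    simp only [Finset.mem_insert, Finset.mem_singleton] at hx
    rcases hx with rfl | rfl
    all_goals fin_cases y
    all_goals first
      | exact absurd (by decide) hy
      | (simp only [Fin.zero_eta, Fin.mk_one, Fin.reduceFinMk] at h; simp only [h, Bool.or_true, Bool.true_or]; done)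
      | (simp only [Fin.zero_eta, Fin.mk_one, Fin.reduceFinMk] at h; rw [hsym] at h; simp only [h, Bool.or_true, Bool.true_or]; done)
  have l0 : (g 0 1).toNat + (g 1 2).toNat + (g 1 3).toNat + (g 1 4).toNat ≤ 2 := by
    have := cut_le T h2 1 0 (3 / 2) (by norm_num) [(0, 1), (1, 2), (1, 3), (1, 4)] (by decide)
      (by intro p hp; fin_cases hp <;> simp [f, P] <;> norm_num)
    simpa [hg, add_assoc] using this
  have l1 : (g 0 2).toNat + (g 0 3).toNat + (g 0 4).toNat + (g 1 2).toNat + (g 1 3).toNat + (g 1 4).toNat ≤ 2 := by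
    have := cut_le T h2 1 0 (1 / 2) (by norm_num) [(0, 2), (0, 3), (0, 4), (1, 2), (1, 3), (1, 4)] (by decide)
      (by intro p hp; fin_cases hp <;> simp [f, P] <;> norm_num)
    simpa [hg, add_assoc] using this
  have l2 : (g 0 2).toNat + (g 1 2).toNat + (g 2 3).toNat + (g 2 4).toNat ≤ 2 := by
    have := cut_le T h2 1 0 (-1 / 2) (by norm_num) [(0, 2), (1, 2), (2, 3), (2, 4)] (by decide)
      (by intro p hp; fin_cases hp <;> simp [f, P] <;> norm_num)
    simpa [hg, add_assoc] using this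
  have l3 : (g 0 3).toNat + (g 1 3).toNat + (g 2 3).toNat + (g 3 4).toNat ≤ 2 := by
    have := cut_le T h2 0 1 (1 / 2) (by norm_num) [(0, 3), (1, 3), (2, 3), (3, 4)] (by decide)
      (by intro p hp; fin_cases hp <;> simp [f, P] <;> norm_num)
    simpa [hg, add_assoc] using this
  have l4 : (g 0 4).toNat + (g 1 4).toNat + (g 2 4).toNat + (g 3 4).toNat ≤ 2 := by
    have := cut_le T h2 0 1 (-1 / 2) (by norm_num) [(0, 4), (1, 4), (2, 4), (3, 4)] (by decide)
      (by intro p hp; fin_cases hp <;> simp [f, P] <;> norm_num)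
    simpa [hg, add_assoc] using this
  have l5 : (g 0 2).toNat + (g 0 4).toNat + (g 1 2).toNat + (g 1 4).toNat + (g 2 3).toNat + (g 3 4).toNat ≤ 2 := by
    have := cut_le T h2 2 2 1 (by norm_num) [(0, 2), (0, 4), (1, 2), (1, 4), (2, 3), (3, 4)] (by decide)
      (by intro p hp; fin_cases hp <;> simp [f, P] <;> norm_num)
    simpa [hg, add_assoc] using this
  have l6 : (g 0 2).toNat + (g 0 3).toNat + (g 1 2).toNat + (g 1 3).toNat + (g 2 4).toNat + (g 3 4).toNat ≤ 2 := by
    have := cut_le T h2 2 (-2) 1 (by norm_num) [(0, 2), (0, 3), (1, 2), (1, 3), (2, 4), (3, 4)] (by decide)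
      (by intro p hp; fin_cases hp <;> simp [f, P] <;> norm_num)
    simpa [hg, add_assoc] using this
  have l7 : (g 0 1).toNat + (g 1 2).toNat + (g 1 4).toNat + (g 0 3).toNat + (g 2 3).toNat + (g 3 4).toNat ≤ 2 := by
    have := cut_le T h2 2 6 3 (by norm_num) [(0, 1), (1, 2), (1, 4), (0, 3), (2, 3), (3, 4)] (by decide)
      (by intro p hp; fin_cases hp <;> simp [f, P] <;> norm_num)
    simpa [hg, add_assoc] using this
  have l8 : (g 0 1).toNat + (g 1 2).toNat + (g 1 3).toNat + (g 0 4).toNat + (g 2 4).toNat + (g 3 4).toNat ≤ 2 := by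
    have := cut_le T h2 2 (-6) 3 (by norm_num) [(0, 1), (1, 2), (1, 3), (0, 4), (2, 4), (3, 4)] (by decide)
      (by intro p hp; fin_cases hp <;> simp [f, P] <;> norm_num)
    simpa [hg, add_assoc] using this
  refine bool_fact _ _ _ _ _ _ _ _ _ _ ?_ ⟨l0, l1, l2, l3, l4, l5, l6, l7, l8⟩
  simp only [Bool.and_eq_true]
  exact ⟨⟨⟨⟨⟨⟨⟨⟨⟨⟨⟨⟨⟨⟨c0, c1⟩, c2⟩, c3⟩, c4⟩, c5⟩, c6⟩, c7⟩, c8⟩, c9⟩, c10⟩, c11⟩, c12⟩, c13⟩, c14⟩

/-- The tree: every point is joined to its predecessor on its half-axis. -/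
def par : Fin 6 → Fin 6 := ![0, 0, 1, 0, 0, 0]

/-- The tree on the indices. -/
def G₀ : SimpleGraph (Fin 6) where
  Adj i j := i ≠ j ∧ (par i = j ∨ par j = i)
  symm := ⟨fun _ _ h => ⟨h.1.symm, h.2.symm⟩⟩
  loopless := ⟨fun _ h => h.1 rfl⟩

instance : DecidableRel G₀.Adj := fun i j =>
  inferInstanceAs (Decidable (i ≠ j ∧ (par i = j ∨ par j = i)))

theorem G₀_tree : G₀.IsTree := by
  rw [SimpleGraph.isTree_iff_connected_and_card]
  constructor
  · have h : ∀ i, G₀.Reachable i 0 := by
      have h1 : G₀.Reachable 1 0 := SimpleGraph.Adj.reachable (by decide)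
      have h2 : G₀.Reachable 2 1 := SimpleGraph.Adj.reachable (by decide)
      have h3 : G₀.Reachable 3 0 := SimpleGraph.Adj.reachable (by decide)
      have h4 : G₀.Reachable 4 0 := SimpleGraph.Adj.reachable (by decide)
      have h5 : G₀.Reachable 5 0 := SimpleGraph.Adj.reachable (by decide)
      intro i
      fin_cases i
      · exact SimpleGraph.Reachable.refl _
      · exact h1
      · exact h2.trans h1
      · exact h3
      · exact h4
      · exact h5
    exact ⟨fun i j => (h i).trans (h j).symm⟩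
  · have h1 : Nat.card G₀.edgeSet = G₀.edgeFinset.card := by
      rw [Nat.card_eq_fintype_card, SimpleGraph.edgeFinset_card]
    rw [h1, Nat.card_eq_fintype_card, Fintype.card_fin]
    decide +kernel

/-- The tree on the points. -/
noncomputable def T₀ : SimpleGraph (conf P₀) := G₀.map (num P₀ P₀_inj).toEmbedding

theorem T₀_tree : T₀.IsTree :=
  (SimpleGraph.Iso.map (num P₀ P₀_inj) G₀).isTree_iff.1 G₀_tree

theorem G₀_cases : ∀ i j : Fin 6, G₀.Adj i j → (i = 0 ∧ j = 1) ∨ (i = 1 ∧ j = 0) ∨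
    (i = 1 ∧ j = 2) ∨ (i = 2 ∧ j = 1) ∨ (i = 0 ∧ j = 3) ∨ (i = 3 ∧ j = 0) ∨ (i = 0 ∧ j = 4) ∨
    (i = 4 ∧ j = 0) ∨ (i = 0 ∧ j = 5) ∨ (i = 5 ∧ j = 0) := by
  decide +kernel

theorem count_le (ℓ : Set Plane) (hℓ : IsLine ℓ) : stabCount T₀ ℓ ≤ 2 := by
  classical
  obtain ⟨u, v, c, -, rfl⟩ := exists_f ℓ hℓ
  have e0 : f u v c (P₀ 0) = -c := by simp [f, P₀]
  have e1 : f u v c (P₀ 1) = u - c := by simp [f, P₀]
  have e2 : f u v c (P₀ 2) = 2 * u - c := by simp [f, P₀]; ring
  have e3 : f u v c (P₀ 3) = -u - c := by simp [f, P₀]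
  have e4 : f u v c (P₀ 4) = v - c := by simp [f, P₀]
  have e5 : f u v c (P₀ 5) = -v - c := by simp [f, P₀]
  have key : ∀ i j, G₀.Adj i j → f u v c (P₀ i) * f u v c (P₀ j) < 0 →
      s(num P₀ P₀_inj i, num P₀ P₀_inj j) ∈
        ({if f u v c (P₀ 0) * f u v c (P₀ 1) < 0 then s(num P₀ P₀_inj 0, num P₀ P₀_inj 1) else
          if f u v c (P₀ 1) * f u v c (P₀ 2) < 0 then s(num P₀ P₀_inj 1, num P₀ P₀_inj 2) else
            s(num P₀ P₀_inj 0, num P₀ P₀_inj 3),
          if f u v c (P₀ 0) * f u v c (P₀ 4) < 0 then s(num P₀ P₀_inj 0, num P₀ P₀_inj 4) else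
            s(num P₀ P₀_inj 0, num P₀ P₀_inj 5)} : Set (Sym2 (conf P₀))) := by
    have sw : ∀ i j : Fin 6, s(num P₀ P₀_inj i, num P₀ P₀_inj j) =
        s(num P₀ P₀_inj j, num P₀ P₀_inj i) := fun i j => Sym2.eq_swap
    have k01 : f u v c (P₀ 0) * f u v c (P₀ 1) < 0 → ¬ f u v c (P₀ 1) * f u v c (P₀ 2) < 0 := by
      rw [e0, e1, e2]
      intro h1 h2
      nlinarith [sq_nonneg c, sq_nonneg (u - c)]
    have k03 : f u v c (P₀ 0) * f u v c (P₀ 1) < 0 → ¬ f u v c (P₀ 0) * f u v c (P₀ 3) < 0 := by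
      rw [e0, e1, e3]
      intro h1 h2
      nlinarith [sq_nonneg c]
    have k13 : f u v c (P₀ 1) * f u v c (P₀ 2) < 0 → ¬ f u v c (P₀ 0) * f u v c (P₀ 3) < 0 := by
      rw [e0, e1, e2, e3]
      intro h1 h2
      nlinarith [sq_nonneg c, sq_nonneg u]
    have k45 : f u v c (P₀ 0) * f u v c (P₀ 4) < 0 → ¬ f u v c (P₀ 0) * f u v c (P₀ 5) < 0 := by
      rw [e0, e4, e5]
      intro h1 h2
      nlinarith [sq_nonneg c]
    have q01 : f u v c (P₀ 0) * f u v c (P₀ 1) < 0 → s(num P₀ P₀_inj 0, num P₀ P₀_inj 1) ∈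
        ({if f u v c (P₀ 0) * f u v c (P₀ 1) < 0 then s(num P₀ P₀_inj 0, num P₀ P₀_inj 1) else
          if f u v c (P₀ 1) * f u v c (P₀ 2) < 0 then s(num P₀ P₀_inj 1, num P₀ P₀_inj 2) else
            s(num P₀ P₀_inj 0, num P₀ P₀_inj 3),
          if f u v c (P₀ 0) * f u v c (P₀ 4) < 0 then s(num P₀ P₀_inj 0, num P₀ P₀_inj 4) else
            s(num P₀ P₀_inj 0, num P₀ P₀_inj 5)} : Set (Sym2 (conf P₀))) := by
      intro h
      left
      rw [if_pos h]
    have q12 : f u v c (P₀ 1) * f u v c (P₀ 2) < 0 → s(num P₀ P₀_inj 1, num P₀ P₀_inj 2) ∈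
        ({if f u v c (P₀ 0) * f u v c (P₀ 1) < 0 then s(num P₀ P₀_inj 0, num P₀ P₀_inj 1) else
          if f u v c (P₀ 1) * f u v c (P₀ 2) < 0 then s(num P₀ P₀_inj 1, num P₀ P₀_inj 2) else
            s(num P₀ P₀_inj 0, num P₀ P₀_inj 3),
          if f u v c (P₀ 0) * f u v c (P₀ 4) < 0 then s(num P₀ P₀_inj 0, num P₀ P₀_inj 4) else
            s(num P₀ P₀_inj 0, num P₀ P₀_inj 5)} : Set (Sym2 (conf P₀))) := by
      intro h
      left
      rw [if_neg (fun h' => k01 h' h), if_pos h]
    have q03 : f u v c (P₀ 0) * f u v c (P₀ 3) < 0 → s(num P₀ P₀_inj 0, num P₀ P₀_inj 3) ∈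
        ({if f u v c (P₀ 0) * f u v c (P₀ 1) < 0 then s(num P₀ P₀_inj 0, num P₀ P₀_inj 1) else
          if f u v c (P₀ 1) * f u v c (P₀ 2) < 0 then s(num P₀ P₀_inj 1, num P₀ P₀_inj 2) else
            s(num P₀ P₀_inj 0, num P₀ P₀_inj 3),
          if f u v c (P₀ 0) * f u v c (P₀ 4) < 0 then s(num P₀ P₀_inj 0, num P₀ P₀_inj 4) else
            s(num P₀ P₀_inj 0, num P₀ P₀_inj 5)} : Set (Sym2 (conf P₀))) := by
      intro h
      left
      rw [if_neg (fun h' => k03 h' h), if_neg (fun h' => k13 h' h)]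
    have q04 : f u v c (P₀ 0) * f u v c (P₀ 4) < 0 → s(num P₀ P₀_inj 0, num P₀ P₀_inj 4) ∈
        ({if f u v c (P₀ 0) * f u v c (P₀ 1) < 0 then s(num P₀ P₀_inj 0, num P₀ P₀_inj 1) else
          if f u v c (P₀ 1) * f u v c (P₀ 2) < 0 then s(num P₀ P₀_inj 1, num P₀ P₀_inj 2) else
            s(num P₀ P₀_inj 0, num P₀ P₀_inj 3),
          if f u v c (P₀ 0) * f u v c (P₀ 4) < 0 then s(num P₀ P₀_inj 0, num P₀ P₀_inj 4) else
            s(num P₀ P₀_inj 0, num P₀ P₀_inj 5)} : Set (Sym2 (conf P₀))) := by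
      intro h
      right
      show _ = _
      rw [if_pos h]
    have q05 : f u v c (P₀ 0) * f u v c (P₀ 5) < 0 → s(num P₀ P₀_inj 0, num P₀ P₀_inj 5) ∈
        ({if f u v c (P₀ 0) * f u v c (P₀ 1) < 0 then s(num P₀ P₀_inj 0, num P₀ P₀_inj 1) else
          if f u v c (P₀ 1) * f u v c (P₀ 2) < 0 then s(num P₀ P₀_inj 1, num P₀ P₀_inj 2) else
            s(num P₀ P₀_inj 0, num P₀ P₀_inj 3),
          if f u v c (P₀ 0) * f u v c (P₀ 4) < 0 then s(num P₀ P₀_inj 0, num P₀ P₀_inj 4) else
            s(num P₀ P₀_inj 0, num P₀ P₀_inj 5)} : Set (Sym2 (conf P₀))) := by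
      intro h
      right
      show _ = _
      rw [if_neg (fun h' => k45 h' h)]
    intro i j hij h
    rcases G₀_cases i j hij with ⟨rfl, rfl⟩ | ⟨rfl, rfl⟩ | ⟨rfl, rfl⟩ | ⟨rfl, rfl⟩ | ⟨rfl, rfl⟩ | ⟨rfl, rfl⟩ |
      ⟨rfl, rfl⟩ | ⟨rfl, rfl⟩ | ⟨rfl, rfl⟩ | ⟨rfl, rfl⟩
    · exact q01 h
    · rw [sw 1 0]; exact q01 (by rwa [mul_comm])
    · exact q12 h
    · rw [sw 2 1]; exact q12 (by rwa [mul_comm])
    · exact q03 h
    · rw [sw 3 0]; exact q03 (by rwa [mul_comm])
    · exact q04 h
    · rw [sw 4 0]; exact q04 (by rwa [mul_comm])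
    · exact q05 h
    · rw [sw 5 0]; exact q05 (by rwa [mul_comm])
  refine le_trans (Set.ncard_le_ncard (t := {if f u v c (P₀ 0) * f u v c (P₀ 1) < 0 then s(num P₀ P₀_inj 0, num P₀ P₀_inj 1) else
          if f u v c (P₀ 1) * f u v c (P₀ 2) < 0 then s(num P₀ P₀_inj 1, num P₀ P₀_inj 2) else
            s(num P₀ P₀_inj 0, num P₀ P₀_inj 3),
          if f u v c (P₀ 0) * f u v c (P₀ 4) < 0 then s(num P₀ P₀_inj 0, num P₀ P₀_inj 4) else
            s(num P₀ P₀_inj 0, num P₀ P₀_inj 5)}) ?_ (Set.toFinite _)) (Set.ncard_insert_le _ _ |>.trans (by rw [Set.ncard_singleton]))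
  rintro e ⟨he, a, b, rfl, hst⟩
  have hadj : T₀.Adj a b := he
  have hab : a ≠ b := hadj.ne
  obtain ⟨i, rfl⟩ := (num P₀ P₀_inj).surjective a
  obtain ⟨j, rfl⟩ := (num P₀ P₀_inj).surjective b
  have hG : G₀.Adj i j := by
    have := (SimpleGraph.Iso.map (num P₀ P₀_inj) G₀).map_adj_iff (v := i) (w := j)
    exact this.1 hadj
  refine key i j hG ?_
  rw [num_coe, num_coe] at hst
  exact of_stabs _ _ _ _ _ (fun h => hab (congrArg _ (P₀_inj h))) hst

theorem upper : treeStab (conf P₀) ≤ 2 := by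
  refine le_trans (Nat.sInf_le ⟨T₀, T₀_tree, rfl⟩) ?_
  refine csSup_le ⟨_, {q | f 1 0 0 q = 0}, isLine_f 1 0 0 (by norm_num), rfl⟩ ?_
  rintro k ⟨ℓ, hℓ, rfl⟩
  exact count_le ℓ hℓ

theorem exists_tree : ∃ T : SimpleGraph (conf P), T.IsTree := by
  have hne : Nonempty (conf P) := ⟨num P P_inj 0⟩
  obtain ⟨T, -, hT⟩ := (SimpleGraph.connected_top (V := conf P)).exists_isTree_le
  exact ⟨T, hT⟩

theorem lower' : 3 ≤ treeStab (conf P) := by
  obtain ⟨T, hT⟩ := exists_tree
  have hne : {k | ∃ T : SimpleGraph (conf P), T.IsTree ∧ k = stabNumber T}.Nonempty :=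
    ⟨_, T, hT, rfl⟩
  refine le_csInf hne ?_
  rintro k ⟨T, hT, rfl⟩
  exact lower T hT

/-- There are configurations `S' ⊆ S` (with `6` and `5` points) for which the tree stabbing
number of `S'` is larger than that of `S`. -/
theorem result : ∃ S S' : Finset Plane, S'.Nonempty ∧ S' ⊆ S ∧ S.card = 6 ∧ S'.card = 5 ∧
    treeStab S < treeStab S' := by
  classical
  refine ⟨conf P₀, conf P, ⟨P 0, (mem_conf _ _).2 ⟨0, rfl⟩⟩, ?_, ?_, ?_, ?_⟩
  · intro p hp
    obtain ⟨i, rfl⟩ := (mem_conf _ _).1 hp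
    exact (mem_conf _ _).2 ⟨i.succ, (P_eq i).symm⟩
  · rw [conf, Finset.card_image_of_injective _ P₀_inj, Finset.card_univ, Fintype.card_fin]
  · rw [conf, Finset.card_image_of_injective _ P_inj, Finset.card_univ, Fintype.card_fin]
  · have h1 := upper
    have h2 := lower'
    omega

end Pool.Agent.Results.MP_3f72ec_co.NotMonotone
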